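import Pool.Agent.P.MP_04e97d_an.Main

/-! The rescaled adjoint multipliers. -/

namespace Pool.Agent.P.MP_04e97d_an.U

open Finset Filter Topology
open scoped ComplexOrder

noncomputable section

def dg (c : ℕ → ℝ) (K : ℝ) (hK : ∀ n, |c n| ≤ K) : H →L[ℂ] H :=
  lp.mapCLM 2 (fun i => (c i : ℂ) • ContinuousLinearMap.id ℂ ℂ) ((abs_nonneg _).trans (hK 0))
    fun i => by
      simp only [norm_smul, ContinuousLinearMap.norm_id, mul_one, Complex.norm_real,
        Real.norm_eq_abs, hK]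

lemma dg_apply (c : ℕ → ℝ) (K : ℝ) (hK : ∀ n, |c n| ≤ K) (x : H) (i : ℕ) :
    dg c K hK x i = c i * x i := by
  simp [dg, lp.mapCLM_apply_coe]

lemma norm_dg (c : ℕ → ℝ) (K : ℝ) (hK : ∀ n, |c n| ≤ K) : ‖dg c K hK‖ ≤ K :=
  lp.norm_mapCLM_le _ _ _ _

def sc (i : ℕ) : ℝ := if Even i then 1 else 1 / 200

lemma sc_pos (i : ℕ) : 0 < sc i := by unfold sc; split_ifs <;> norm_num

def Sd : H →L[ℂ] H := dg sc 1 fun n => by unfold sc; split_ifs <;> norm_num [abs_le]

def Si : H →L[ℂ] H := dg (fun i => (sc i)⁻¹) 200 fun n => by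
  unfold sc; split_ifs <;> norm_num [abs_le]

lemma sc_ne (i : ℕ) : (sc i : ℂ) ≠ 0 := Complex.ofReal_ne_zero.2 (sc_pos i).ne'

lemma Sd_Si (x : H) : Sd (Si x) = x := by
  ext i
  rw [Sd, Si, dg_apply, dg_apply, Complex.ofReal_inv, mul_inv_cancel_left₀ (sc_ne i)]

lemma Si_Sd (x : H) : Si (Sd x) = x := by
  ext i
  rw [Sd, Si, dg_apply, dg_apply, Complex.ofReal_inv, inv_mul_cancel_left₀ (sc_ne i)]

/-- The rescaled adjoint. -/
def ad (U : H →L[ℂ] H) : H →L[ℂ] H := Sd ∘L (ContinuousLinearMap.adjoint U) ∘L Si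

lemma ad_apply (U : H →L[ℂ] H) (x : H) :
    ad U x = Sd (ContinuousLinearMap.adjoint U (Si x)) := rfl

lemma ad_mul (U V : H →L[ℂ] H) : ad (U * V) = ad V * ad U := by
  ext1 x
  simp only [mul_apply_eq_comp, ad_apply, Si_Sd]
  rw [← ContinuousLinearMap.star_eq_adjoint, star_mul]; rfl

lemma ad_one : ad 1 = 1 := by
  ext1 x
  rw [ad_apply, ← ContinuousLinearMap.star_eq_adjoint, star_one, one_apply_eq_self, Sd_Si,
    one_apply_eq_self]

lemma ad_add (U V : H →L[ℂ] H) : ad (U + V) = ad U + ad V := by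
  ext1 x; simp only [ad_apply, map_add, add_apply]

lemma ad_sub (U V : H →L[ℂ] H) : ad (U - V) = ad U - ad V := by
  ext1 x; simp only [ad_apply, map_sub, sub_apply]

lemma ad_smul (r : ℝ) (U : H →L[ℂ] H) : ad ((r : ℂ) • U) = (r : ℂ) • ad U := by
  ext1 x
  simp only [ad_apply, map_smulₛₗ, smul_apply, Complex.conj_ofReal, RingHom.id_apply]

lemma norm_ad (U : H →L[ℂ] H) : ‖ad U‖ ≤ 200 * ‖U‖ := by
  refine (ContinuousLinearMap.opNorm_comp_le _ _).trans ?_
  have h1 : ‖Sd‖ ≤ 1 := norm_dg _ _ _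
  have h2 : ‖Si‖ ≤ 200 := norm_dg _ _ _
  have h3 := ContinuousLinearMap.opNorm_comp_le (ContinuousLinearMap.adjoint U) Si
  rw [LinearIsometryEquiv.norm_map] at h3
  calc _ ≤ 1 * (‖U‖ * 200) := by gcongr; exact h3.trans (by gcongr)
    _ = _ := by ring

lemma inner_ev (i : ℕ) (x : H) : inner ℂ (ev i) x = x i := by
  simp [ev, lp.inner_single_left]

lemma adj_entry (U : H →L[ℂ] H) (j k : ℕ) :
    ContinuousLinearMap.adjoint U (ev j) k = starRingEnd ℂ (U (ev k) j) := by
  rw [← inner_ev, ContinuousLinearMap.adjoint_inner_right, ← inner_conj_symm, inner_ev]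

lemma ad_entry (U : H →L[ℂ] H) (j k : ℕ) :
    ad U (ev j) k = sc k * (sc j : ℂ)⁻¹ * starRingEnd ℂ (U (ev k) j) := by
  have h : Si (ev j) = (sc j : ℂ)⁻¹ • ev j := by
    ext i
    rw [Si, dg_apply, lp.coeFn_smul, Pi.smul_apply, ev_apply]
    split_ifs with h <;> simp [h]
  rw [ad_apply, h, map_smul, map_smul, lp.coeFn_smul, Pi.smul_apply, Sd, dg_apply, adj_entry,
    smul_eq_mul]
  ring

lemma op_entry {c : ℕ → ℝ} {S : H →L[ℂ] H} (h : IsOp c S) (i l : ℕ) :
    S (ev l) i = (((if i = l then c l else 0) +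
      (if i < l then Mx i l * (c l - c i) else 0) : ℝ) : ℂ) := by
  rw [h l]
  simp only [lp.coeFn_add, lp.coeFn_smul, Pi.add_apply, Pi.smul_apply, col, lp.coeFn_sum,
    Finset.sum_apply, ev_apply, smul_eq_mul, mul_ite, mul_one, mul_zero, sum_ite_eq, mem_range]
  split_ifs <;> simp

/-- Operators with nonnegative matrix entries. -/
def Pos (S : H →L[ℂ] H) : Prop := ∀ i l, ∃ r : ℝ, 0 ≤ r ∧ S (ev l) i = r

lemma Pos.ad {U : H →L[ℂ] H} (h : Pos U) : Pos (ad U) := by
  intro k j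
  obtain ⟨r, hr, e⟩ := h j k
  have := sc_pos k
  have := sc_pos j
  refine ⟨sc k * (sc j)⁻¹ * r, by positivity, ?_⟩
  rw [ad_entry, e, Complex.conj_ofReal]; push_cast; rfl

lemma Pos.nonneg {S : H →L[ℂ] H} (h : Pos S) {x : H} (hx : ∀ i, 0 ≤ x i) (i : ℕ) : 0 ≤ S x i := by
  refine (hasSum_entry S x i).nonneg fun l => mul_nonneg (hx l) ?_
  obtain ⟨r, hr, h⟩ := h i l
  rw [h]; exact Complex.zero_le_real.2 hr

lemma Pos.dom {S : H →L[ℂ] H} (hS : Pos S) {x y : H} (h : ∀ i, ‖x i‖ ≤ ‖y i‖) (i : ℕ) :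
    ‖S x i‖ ≤ ‖S (absH y) i‖ := by
  have h1 := hasSum_entry S x i
  have h2 := Complex.hasSum_re (hasSum_entry S (absH y) i)
  rw [← h1.tsum_eq]
  refine (tsum_of_norm_bounded h2 fun l => ?_).trans
    ((le_abs_self _).trans (Complex.abs_re_le_norm _))
  obtain ⟨r, hr, h3⟩ := hS i l
  rw [h3, absH_apply, ← Complex.ofReal_mul, Complex.ofReal_re, norm_mul, Complex.norm_real,
    Real.norm_eq_abs, abs_of_nonneg hr]
  exact mul_le_mul_of_nonneg_right (h l) hr

lemma pos_of_mono {c : ℕ → ℝ} {S : H →L[ℂ] H} (h : IsOp c S) (hc : Monotone c)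
    (h0 : ∀ n, 0 ≤ c n) : Pos S := by
  intro i l
  refine ⟨_, ?_, op_entry h i l⟩
  apply add_nonneg
  · split_ifs
    · exact h0 _
    · exact le_rfl
  · split_ifs with h
    · exact mul_nonneg (Mx_nonneg _ _) (sub_nonneg.2 (hc h.le))
    · exact le_rfl

def ind (n l : ℕ) : ℝ := if n ≤ l then 1 else 0

lemma ind_mono (n : ℕ) : Monotone (ind n) := by
  intro a b h
  unfold ind
  split_ifs <;> first | omega | norm_num

lemma ind_abs (n l : ℕ) : |ind n l| ≤ 1 := by unfold ind; split_ifs <;> norm_num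

/-- The tail projections of the basis. -/
def R (n : ℕ) : H →L[ℂ] H := mul (ind n)

lemma R_spec (n : ℕ) : IsOp (ind n) (R n) ∧ ‖R n‖ ≤ 4 * 1 :=
  mul_spec _ 1 (Or.inl (ind_mono n)) (ind_abs n)

lemma R_vv (n l : ℕ) : R n (vv l) = (ind n l : ℂ) • vv l := (R_spec n).1.eigen l

lemma R_mul (n a : ℕ) : R a * R n = R (max n a) := ext_vv fun l => by
  rw [mul_apply_eq_comp, R_vv, map_smul, R_vv, R_vv, smul_smul, ← Complex.ofReal_mul]
  congr 2
  unfold ind
  split_ifs <;> first | omega | norm_num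

lemma R_zero : R 0 = 1 := ext_vv fun l => by simp [R_vv, ind]

def Q (n : ℕ) : H →L[ℂ] H := ad (R n)

lemma Q_pos (n : ℕ) : Pos (Q n) :=
  (pos_of_mono (R_spec n).1 (ind_mono n) fun l => by unfold ind; split_ifs <;> norm_num).ad

lemma Q_Q (n a : ℕ) (x : H) : Q n (Q a x) = Q (max n a) x := by
  rw [← mul_apply_eq_comp, Q, Q, ← ad_mul, R_mul]; rfl

lemma Q_zero (x : H) : Q 0 x = x := by rw [Q, R_zero, ad_one]; rfl

/-- The coordinate projections. -/
def E (b : ℕ∞) : H →L[ℂ] H := dg (fun i => if (i : ℕ∞) < b then 1 else 0) 1 fun i => by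
  split_ifs <;> norm_num

lemma E_apply (b : ℕ∞) (x : H) (i : ℕ) : E b x i = if (i : ℕ∞) < b then x i else 0 := by
  rw [E, dg_apply]; split_ifs <;> simp

lemma E_top (x : H) : E ⊤ x = x := by
  ext i; rw [E_apply, if_pos (ENat.coe_lt_top i)]

lemma E_dom {x y : H} (h : ∀ i, ‖x i‖ ≤ ‖y i‖) {b b' : ℕ∞} (hb : b ≤ b') :
    ‖E b x‖ ≤ ‖E b' y‖ := by
  refine lp.norm_mono (by simp) fun i => ?_
  rw [E_apply, E_apply]
  by_cases h1 : (i : ℕ∞) < b
  · rw [if_pos h1, if_pos (h1.trans_le hb)]; exact h i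
  · rw [if_neg h1, norm_zero]; exact norm_nonneg _

lemma E_le (b : ℕ∞) (x : H) : ‖E b x‖ ≤ ‖x‖ := by
  simpa only [E_top] using E_dom (x := x) (y := x) (fun _ => le_rfl) (le_top (a := b))

lemma E_pyth {n b : ℕ∞} (h : n ≤ b) (x : H) :
    ‖E b x‖ ^ 2 = ‖E n x‖ ^ 2 + ‖E b (x - E n x)‖ ^ 2 := by
  have h1 : E b x = E n x + E b (x - E n x) := by
    ext i
    simp only [lp.coeFn_add, Pi.add_apply, E_apply, lp.coeFn_sub, Pi.sub_apply]
    by_cases h1 : (i : ℕ∞) < n
    · simp [h1, h1.trans_le h]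
    · simp [h1]
  have h2 : inner ℂ (E n x) (E b (x - E n x)) = 0 := by
    rw [lp.inner_eq_tsum]
    convert tsum_zero with i
    simp only [E_apply, lp.coeFn_sub, Pi.sub_apply]
    by_cases h1 : (i : ℕ∞) < n <;> simp [h1]
  rw [h1, sq, norm_add_sq_eq_norm_sq_add_norm_sq_of_inner_eq_zero (𝕜 := ℂ) _ _ h2]
  ring

lemma Q_eq (n : ℕ) : Q n - (1 - E n) =
    ((1 / 200 : ℂ) • ContinuousLinearMap.adjoint (R n - (1 - E n))) ∘L E n := by
  refine ext_ev fun j => ?_
  have h : E n (ev j) = (if j < n then 1 else 0 : ℂ) • ev j := by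
    ext i
    rw [lp.coeFn_smul, Pi.smul_apply, E_apply, ev_apply]
    by_cases h1 : i = j
    · subst h1; simp
    · simp [h1]
  ext k
  rw [ContinuousLinearMap.comp_apply, h, map_smul, smul_apply, lp.coeFn_smul, lp.coeFn_smul,
    Pi.smul_apply, Pi.smul_apply, adj_entry]
  simp only [sub_apply, one_apply_eq_self, lp.coeFn_sub, Pi.sub_apply, Q, ad_entry,
    op_entry (R_spec n).1, E_apply, ev_apply, Complex.conj_ofReal, map_sub, smul_eq_mul,
    Nat.cast_lt]
  by_cases h1 : j = k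
  · subst h1
    rw [mul_inv_cancel₀ (sc_ne j)]
    by_cases h2 : j < n
    · simp [h2, ind, not_le.2 h2]
    · simp [h2, ind, not_lt.1 h2]
  · have h1' : k ≠ j := fun h => h1 h.symm
    simp only [h1, h1', if_false, zero_add, ite_self, map_zero, sub_zero]
    by_cases h2 : j < k
    · rw [if_pos h2]
      by_cases h3 : Even j
      · by_cases h4 : Even k
        · simp [Mx_of_even _ _ h4]
        · by_cases h5 : j < n
          · simp [sc, h3, h4, h5]
          · simp [ind, not_lt.1 h5, (not_lt.1 h5).trans h2.le]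
      · simp [Mx_of_odd _ _ h3]
    · simp [h2]

lemma Q_near (n : ℕ) (x : H) : ‖Q n x - (x - E n x)‖ ≤ 1 / 40 * ‖E n x‖ := by
  have h1 : Q n x - (x - E n x) = (Q n - (1 - E n)) x := rfl
  have h2 : ‖(1 - E n : H →L[ℂ] H)‖ ≤ 1 := by
    refine ContinuousLinearMap.opNorm_le_bound _ zero_le_one fun x => ?_
    rw [one_mul]
    refine lp.norm_mono (by simp) fun i => ?_
    simp only [sub_apply, one_apply_eq_self, lp.coeFn_sub, Pi.sub_apply, E_apply]
    split_ifs <;> simp
  have h3 := norm_sub_le (R n) (1 - E n)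
  have h4 := (R_spec n).2
  rw [h1, Q_eq, ContinuousLinearMap.comp_apply]
  refine ContinuousLinearMap.le_of_opNorm_le _ ?_ _
  rw [norm_smul, LinearIsometryEquiv.norm_map]
  norm_num
  linarith

lemma R_tendsto (x : H) : Tendsto (fun n => R n x) atTop (𝓝 0) := by
  rw [Metric.tendsto_atTop]
  intro ε hε
  obtain ⟨y, hy, h⟩ := Metric.mem_closure_iff.1 (dense_vv x) (ε / 4) (by positivity)
  have h1 : ∀ᶠ n in atTop, R n y = 0 := by
    refine Submodule.span_induction (p := fun y _ => ∀ᶠ n in atTop, R n y = 0) ?_ ?_ ?_ ?_ hy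
    · rintro _ ⟨l, rfl⟩
      filter_upwards [eventually_gt_atTop l] with n hn
      simp [R_vv, ind, not_le.2 hn]
    · simp
    · intro a b _ _ ha hb
      filter_upwards [ha, hb] with n h1 h2
      rw [map_add, h1, h2, add_zero]
    · intro c a _ ha
      filter_upwards [ha] with n h1
      rw [map_smul, h1, smul_zero]
  obtain ⟨N, hN⟩ := eventually_atTop.1 h1
  refine ⟨N, fun n hn => ?_⟩
  have h2 := (R n).le_of_opNorm_le (R_spec n).2 (x - y)
  rw [map_sub, hN n hn, sub_zero, ← dist_eq_norm] at h2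
  rw [dist_zero_right]
  linarith

/-- The coordinate projections of the basis. -/
def Pr (j : ℕ) : H →L[ℂ] H := R j - R (j + 1)

lemma P_vv (j l : ℕ) : Pr j (vv l) = if l = j then vv l else 0 := by
  rw [Pr, sub_apply, R_vv, R_vv, ← sub_smul]
  unfold ind
  split_ifs <;> first | omega | simp

lemma ad_eigen {c : ℕ → ℝ} {S : H →L[ℂ] H} (h : ∀ l, S (vv l) = (c l : ℂ) • vv l) (j : ℕ)
    (x : H) : ad S (ad (Pr j) x) = (c j : ℂ) • ad (Pr j) x := by
  rw [← mul_apply_eq_comp, ← ad_mul, ← smul_apply, ← ad_smul]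
  congr 2
  refine ext_vv fun l => ?_
  rw [mul_apply_eq_comp, h, map_smul, smul_apply, P_vv]
  split_ifs with h1
  · rw [h1]
  · simp

def ww (j : ℕ) : H := ad (Pr j) (ev j)

lemma dense_ww : Dense (Submodule.span ℂ (Set.range ww) : Set H) := by
  rw [Submodule.dense_iff_topologicalClosure_eq_top, Submodule.topologicalClosure_eq_top_iff,
    Submodule.eq_bot_iff]
  intro y hy
  set z := ContinuousLinearMap.adjoint Sd y with hz
  have h1 : ∀ j, Pr j z = 0 := by
    intro j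
    have h2 := hy (ww j) (Submodule.subset_span ⟨j, rfl⟩)
    have h3 : Si (ev j) = (sc j : ℂ)⁻¹ • ev j := by
      ext i
      rw [Si, dg_apply, lp.coeFn_smul, Pi.smul_apply, ev_apply]
      split_ifs with h <;> simp [h]
    rw [ww, ad_apply, ← ContinuousLinearMap.adjoint_inner_right,
      ContinuousLinearMap.adjoint_inner_left, h3, inner_smul_left, inner_ev, mul_eq_zero] at h2
    have h4 := h2.resolve_left (by simpa using (sc_pos j).ne')
    have h5 : Pr j = ((lp.evalCLM ℂ (fun _ : ℕ => ℂ) 2 j) ∘L Pr j).smulRight (vv j) := by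
      refine ext_vv fun l => ?_
      rw [ContinuousLinearMap.smulRight_apply, ContinuousLinearMap.comp_apply, P_vv]
      split_ifs with h
      · subst h
        have : vv l l = 1 := by
          rw [vv, lp.coeFn_add, Pi.add_apply, sum_ev_apply, ev_apply]; simp
        change vv l = vv l l • vv l
        rw [this, one_smul]
      · simp
    rw [h5]
    change Pr j z j • vv j = 0
    rw [h4, zero_smul]
  have h2 : ∀ n, R n z = z := by
    intro n
    induction n with
    | zero => rw [R_zero]; rfl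
    | succ n ih =>
      have h3 : R n z - R (n + 1) z = 0 := h1 n
      rw [← sub_eq_zero.1 h3, ih]
  have h3 := R_tendsto z
  simp only [h2] at h3
  have h4 : z = 0 := tendsto_nhds_unique tendsto_const_nhds h3
  have h5 := ContinuousLinearMap.adjoint_inner_right Sd (Si y) y
  rw [← hz, h4, inner_zero_right, Sd_Si] at h5
  exact inner_self_eq_zero.1 h5.symm

/-- The graph of the sign change on eigenvectors of the adjoint. -/
def GA : Submodule ℂ (H × H) :=
  Submodule.span ℂ {p | ∃ (j : ℕ) (x : H), p = (ad (Pr j) x, (-1 : ℂ) ^ j • ad (Pr j) x)}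

lemma GA_unbounded (C : ℝ) : ∃ p ∈ GA, C * ‖p.1‖ < ‖p.2‖ := by
  by_contra hne
  push Not at hne
  obtain ⟨p, hp, hlt⟩ := GG_unbounded (200 * (|C| * 1000))
  let S : ℕ → H →L[ℂ] H := fun N => ∑ j ∈ range N, (((-1 : ℝ) ^ j : ℝ) : ℂ) • Pr j
  have h1 : ∀ N x, (ad (1 - R N) x, ad (S N) x) ∈ GA := by
    intro N x
    induction N with
    | zero =>
      have : ad 0 = 0 := by simpa using ad_sub 1 1
      simp only [S, R_zero, this, sub_self, range_zero, sum_empty, zero_apply]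
      exact GA.zero_mem
    | succ N ih =>
      have h2 : (ad (Pr N) x, (-1 : ℂ) ^ N • ad (Pr N) x) ∈ GA := Submodule.subset_span ⟨N, x, rfl⟩
      convert Submodule.add_mem _ ih h2 using 1
      refine Prod.ext ?_ ?_
      · rw [Prod.fst_add, ← add_apply, ← ad_add, Pr, sub_add_sub_cancel]
      · simp only [S, sum_range_succ, ad_add, ad_smul, Prod.snd_add, add_apply, smul_apply]
        push_cast; rfl
  have h2 : ∀ N, ‖S N‖ ≤ 200 * (|C| * 1000) := by
    intro N
    have h3 : ‖ad (1 - R N)‖ ≤ 1000 := by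
      have := norm_ad (1 - R N)
      have := norm_sub_le (1 : H →L[ℂ] H) (R N)
      have := (R_spec N).2
      have : ‖(1 : H →L[ℂ] H)‖ ≤ 1 := ContinuousLinearMap.norm_id_le
      linarith
    rw [← (ContinuousLinearMap.adjoint (𝕜 := ℂ) (E := H) (F := H)).norm_map]
    refine ContinuousLinearMap.opNorm_le_bound _ (by positivity) fun x => ?_
    have h4 : ContinuousLinearMap.adjoint (S N) x = Si (ad (S N) (Sd x)) := by
      rw [ad_apply, Si_Sd, Si_Sd]
    have h5 := hne _ (h1 N (Sd x))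
    have h6 := (ad (1 - R N)).le_of_opNorm_le h3 (Sd x)
    have h7 := Sd.le_of_opNorm_le (norm_dg _ _ _) x
    have h8 := Si.le_of_opNorm_le (norm_dg _ _ _) (ad (S N) (Sd x))
    rw [h4]
    calc _ ≤ 200 * ‖ad (S N) (Sd x)‖ := h8
      _ ≤ 200 * (|C| * ‖ad (1 - R N) (Sd x)‖) := by
          gcongr
          exact h5.trans (mul_le_mul_of_nonneg_right (le_abs_self C) (norm_nonneg _))
      _ ≤ 200 * (|C| * (1000 * (1 * ‖x‖))) := by gcongr; exact h6.trans (by gcongr)
      _ = _ := by ring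
  have h3 : ∀ᶠ N in atTop, S N p.1 = p.2 := by
    refine Submodule.span_induction (p := fun (p : H × H) _ => ∀ᶠ N in atTop, S N p.1 = p.2)
      ?_ ?_ ?_ ?_ hp
    · rintro _ ⟨l, rfl⟩
      filter_upwards [eventually_gt_atTop l] with N hN
      simp only [S, _root_.sum_apply, smul_apply, P_vv, smul_ite, smul_zero, sum_ite_eq, mem_range, hN,
        if_true]
      push_cast; rfl
    · simp
    · intro a b _ _ ha hb
      filter_upwards [ha, hb] with n h1 h2
      rw [Prod.fst_add, map_add, h1, h2, Prod.snd_add]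
    · intro c a _ ha
      filter_upwards [ha] with n h1
      rw [Prod.smul_fst, map_smul, h1, Prod.smul_snd]
  obtain ⟨N, hN⟩ := h3.exists
  have := (S N).le_of_opNorm_le (h2 N) p.1
  rw [hN] at this
  linarith

end

end Pool.Agent.P.MP_04e97d_an.U
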