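import Pool.Agent.P.MP_04e97d_an.U.Final

/-! The sectoriality angle is zero. -/

namespace Pool.Agent.P.MP_04e97d_an.U

open Set Complex Filter Topology

noncomputable section

lemma dist_lower {k : ℝ} (hk : -1 ≤ k) (hk1 : k < 1) {z : ℂ} (hz : z.re ≤ k * ‖z‖) {x : ℝ}
    (hx : 0 ≤ x) : (1 - k) / 2 * (‖z‖ + x) ≤ ‖z - x‖ := by
  refine abs_le_of_sq_le_sq' ?_ (norm_nonneg _) |>.2
  have h1 : ‖z - x‖ ^ 2 = ‖z‖ ^ 2 - 2 * x * z.re + x ^ 2 := by
    rw [Complex.sq_norm, Complex.sq_norm, normSq_apply, normSq_apply]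
    simp only [sub_re, sub_im, ofReal_re, ofReal_im]
    ring
  have h2 := mul_le_mul_of_nonneg_left hz hx
  have h3 : 0 ≤ (1 + k) * (‖z‖ - x) ^ 2 := mul_nonneg (by linarith) (sq_nonneg _)
  have h4 : ((1 - k) / 2) ^ 2 ≤ (1 - k) / 2 := by nlinarith
  have h5 := mul_le_mul_of_nonneg_right h4 (sq_nonneg (‖z‖ + x))
  rw [h1, mul_pow]
  nlinarith

lemma exists_inv {k : ℝ} (hk : -1 ≤ k) (hk1 : k < 1) {z : ℂ} (h0 : z ≠ 0) (hz : z.re ≤ k * ‖z‖) :
    ∃ U : H →L[ℂ] H, (z • 1 - AH) * U = 1 ∧ U * (z • 1 - AH) = 1 ∧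
      ‖z‖ * ‖U‖ ≤ 5 / ((1 - k) / 2) ^ 2 := by
  set κ := (1 - k) / 2 with hκ
  have κ0 : 0 < κ := by linarith
  have κ1 : κ ≤ 1 := by linarith
  have z0 : 0 < ‖z‖ := norm_pos_iff.2 h0
  have hl : ∀ n, κ * (‖z‖ + nu n) ≤ ‖z - nu n‖ := fun n => dist_lower hk hk1 hz (nu_pos n).le
  have hp : ∀ n, 0 < ‖z‖ + nu n := fun n => add_pos z0 (nu_pos n)
  have hne : ∀ n, z - nu n ≠ 0 := fun n =>
    norm_pos_iff.1 ((mul_pos κ0 (hp n)).trans_le (hl n))
  let d : ℕ → ℂ := fun n => (z - nu n)⁻¹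
  let g : ℕ → ℝ := fun n => 4 / κ ^ 2 * ((‖z‖ + nu (n + 1))⁻¹ - (‖z‖ + nu n)⁻¹)
  have hb : ∀ n, ‖(d (n + 1) - d n) • R (n + 1)‖ ≤ g n := by
    intro n
    have e : d (n + 1) - d n = ((nu (n + 1) - nu n : ℝ) : ℂ) * (d (n + 1) * d n) := by
      have := hne n; have := hne (n + 1)
      simp only [d]; push_cast; field_simp; ring
    have h1 : 0 ≤ nu n - nu (n + 1) := sub_nonneg.2 (nu_anti n.le_succ)
    have a1 := hl n
    have a2 := hl (n + 1)
    have a3 := hp n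
    have a4 := hp (n + 1)
    have a5 := (R_spec (n + 1)).2
    rw [norm_smul, e, norm_mul, norm_mul, norm_real, Real.norm_eq_abs, abs_sub_comm,
      abs_of_nonneg h1, norm_inv, norm_inv]
    calc _ ≤ (nu n - nu (n + 1)) * ((κ * (‖z‖ + nu (n + 1)))⁻¹ * (κ * (‖z‖ + nu n))⁻¹) * (4 * 1) := by
          gcongr
      _ = g n := by simp only [g]; field_simp; ring
  have hs : ∀ n, ∑ i ∈ Finset.range n, ‖(d (i + 1) - d i) • R (i + 1)‖ ≤ 4 / κ ^ 2 * ‖z‖⁻¹ := by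
    intro n
    refine (Finset.sum_le_sum fun i _ => hb i).trans ?_
    rw [← Finset.mul_sum, Finset.sum_range_sub fun n => (‖z‖ + nu n)⁻¹]
    have a1 : (‖z‖ + nu n)⁻¹ ≤ ‖z‖⁻¹ := by have := nu_pos n; gcongr; linarith
    have a2 := inv_pos.2 (hp 0)
    gcongr; linarith
  have hsum := summable_of_sum_range_le (fun _ => norm_nonneg _) hs
  have hU : ∀ l, (d 0 • 1 + ∑' n, (d (n + 1) - d n) • R (n + 1) : H →L[ℂ] H) (vv l)
      = d l • vv l := by
    intro l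
    have h1 := (hsum.of_norm.hasSum.mapL (ContinuousLinearMap.apply ℂ H (vv l))).tsum_eq
    simp only [ContinuousLinearMap.apply_apply, smul_apply, R_vv, smul_smul] at h1
    rw [add_apply, ← h1, tsum_eq_sum (s := Finset.range l) fun n hn => by
      simp [ind, show ¬ n + 1 ≤ l by simpa using hn], ← Finset.sum_smul,
      Finset.sum_congr rfl (g := fun n => d (n + 1) - d n) fun n hn => by
        simp [ind, show n + 1 ≤ l by simpa using hn], Finset.sum_range_sub, smul_apply,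
      one_apply_eq_self, ← add_smul, add_sub_cancel]
  have hA : ∀ l, (z • 1 - AH : H →L[ℂ] H) (vv l) = (z - nu l) • vv l := fun l => by
    rw [sub_apply, smul_apply, one_apply_eq_self, AH_vv, sub_smul]
  refine ⟨d 0 • 1 + ∑' n, (d (n + 1) - d n) • R (n + 1), ext_vv fun l => ?_, ext_vv fun l => ?_,
    ?_⟩
  · rw [mul_apply_eq_comp, hU, map_smul, hA, smul_smul, inv_mul_cancel₀ (hne l), one_smul]; rfl
  · rw [mul_apply_eq_comp, hA, map_smul, hU, smul_smul, mul_inv_cancel₀ (hne l), one_smul]; rfl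
  · have h1 : ‖∑' n, (d (n + 1) - d n) • R (n + 1)‖ ≤ 4 / κ ^ 2 * ‖z‖⁻¹ :=
      (norm_tsum_le_tsum_norm hsum).trans (hsum.tsum_le_of_sum_range_le hs)
    have h2 : ‖d 0 • (1 : H →L[ℂ] H)‖ ≤ 1 / κ ^ 2 * ‖z‖⁻¹ := by
      have a1 : ‖(1 : H →L[ℂ] H)‖ ≤ 1 := ContinuousLinearMap.norm_id_le
      have a2 : κ ^ 2 * ‖z‖ ≤ ‖z - nu 0‖ := by
        refine le_trans ?_ (hl 0)
        have := nu_pos 0
        gcongr <;> nlinarith
      rw [norm_smul, norm_inv]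
      calc _ ≤ (κ ^ 2 * ‖z‖)⁻¹ * 1 := by gcongr
        _ = _ := by field_simp
    calc _ ≤ ‖z‖ * (1 / κ ^ 2 * ‖z‖⁻¹ + 4 / κ ^ 2 * ‖z‖⁻¹) := by
          gcongr; exact (norm_add_le _ _).trans (add_le_add h2 h1)
      _ = _ := by field_simp; ring

lemma cj_mul (S T : H →L[ℂ] H) : cj (S * T) = cj S * cj T := by
  ext1 x; apply eH.injective; simp only [eH_cj, mul_apply_eq_comp]

lemma cj_one : cj 1 = 1 := by
  ext1 x; apply eH.injective; rw [eH_cj]; rfl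

lemma res_bound {a : ℝ} (h0 : 0 < a) {z : ℂ} (hz0 : z ≠ 0) (hz : a ≤ |arg z|) :
    z ∉ spectrum ℂ AX ∧ ‖z • resolvent AX z‖ ≤ 400 * (5 / ((1 - Real.cos a) / 2) ^ 2) := by
  have h1 := abs_arg_le_pi z
  have h2 : Real.cos (arg z) ≤ Real.cos a := by
    rw [← Real.cos_abs]; exact Real.cos_le_cos_of_nonneg_of_le_pi h0.le h1 hz
  have h3 : Real.cos a < 1 := by
    simpa using Real.cos_lt_cos_of_nonneg_of_le_pi le_rfl (hz.trans h1) h0
  obtain ⟨U, u1, u2, u3⟩ := exists_inv (Real.neg_one_le_cos a) h3 (z := starRingEnd ℂ z)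
    (by simpa using hz0) (by
      rw [conj_re, norm_conj, ← norm_mul_cos_arg z, mul_comm]; gcongr)
  have e : algebraMap ℂ (XX →L[ℂ] XX) z - AX = cj (ad (starRingEnd ℂ z • 1 - AH)) := by
    ext1 x; apply eH.injective
    rw [sub_apply_eq, eH_cj, ad_sub, map_sub, map_smul, AX, eH_cj, sub_apply, ad_apply (_ • _),
      map_smulₛₗ, conj_conj, smul_apply, map_smul, ← ad_apply, ad_one]
    rfl
  let u : (XX →L[ℂ] XX)ˣ := ⟨algebraMap ℂ (XX →L[ℂ] XX) z - AX, cj (ad U),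
    by rw [e, ← cj_mul, ← ad_mul, u2, ad_one, cj_one],
    by rw [e, ← cj_mul, ← ad_mul, u1, ad_one, cj_one]⟩
  refine ⟨spectrum.notMem_iff.2 u.isUnit, ?_⟩
  rw [show resolvent AX z = cj (ad U) from Ring.inverse_unit u, norm_smul]
  rw [norm_conj] at u3
  have h4 := (norm_cj (ad U)).trans (mul_le_mul_of_nonneg_left (norm_ad U) zero_le_two)
  have h5 := mul_le_mul_of_nonneg_left h4 (norm_nonneg z)
  linarith

theorem angle_zero : sectAngles AX = Ioo 0 Real.pi := by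
  refine subset_antisymm (fun ω h => ⟨h.1, h.2.1⟩) fun ω h => ⟨h.1, h.2, fun z hz => ?_, ?_⟩
  · by_cases h0 : z = 0
    · subst h0
      have hlim : Tendsto (fun t : ℝ => (t : ℂ)) (𝓝[>] 0) (𝓝 0) :=
        (continuous_ofReal.tendsto' 0 0 rfl).mono_left nhdsWithin_le_nhds
      refine mem_closure_of_tendsto hlim ?_
      filter_upwards [self_mem_nhdsWithin] with t ht
      have ht : 0 < t := ht
      exact ⟨ofReal_ne_zero.2 ht.ne', by rw [arg_ofReal_of_nonneg ht.le, abs_zero]; exact h.1⟩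
    · exact subset_closure ⟨h0, not_le.1 fun h1 => (res_bound h.1 h0 h1).1 hz⟩
  · intro ε hε
    refine ⟨400 * (5 / ((1 - Real.cos (ω + ε)) / 2) ^ 2), fun z hz => ?_⟩
    by_cases h0 : z = 0
    · rw [h0, zero_smul, norm_zero]; positivity
    · exact (res_bound (add_pos h.1 hε) h0 (not_lt.1 fun h1 => hz (subset_closure ⟨h0, h1⟩))).2

end

end Pool.Agent.P.MP_04e97d_an.U
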