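import Pool.Agent.P.MP_04e97d_an.U.Space
import Pool.Agent.P.MP_04e97d_an.Final

/-! The counterexample on a uniformly convex lattice. -/

namespace Pool.Agent.P.MP_04e97d_an.U

open Set Complex Filter Topology
open scoped ComplexOrder

noncomputable section

def cj (S : H →L[ℂ] H) : XX →L[ℂ] XX := (eH.symm : H →L[ℂ] XX) ∘L S ∘L (eH : XX →L[ℂ] H)

lemma eH_cj (S : H →L[ℂ] H) (x : XX) : eH (cj S x) = S (eH x) := by simp [cj]

lemma norm_eH_le (x : XX) : ‖eH x‖ ≤ ‖x‖ := norm_le_N _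

lemma norm_le_eH (x : XX) : ‖x‖ ≤ 2 * ‖eH x‖ := N_le_norm _

lemma norm_cj (S : H →L[ℂ] H) : ‖cj S‖ ≤ 2 * ‖S‖ := by
  refine ContinuousLinearMap.opNorm_le_bound _ (by positivity) fun x => ?_
  refine (norm_le_eH _).trans ?_
  rw [eH_cj, mul_assoc]
  gcongr
  exact S.le_opNorm_of_le (norm_eH_le x)

def AX : XX →L[ℂ] XX := cj (ad AH)

def TX (t : ℝ) : XX →L[ℂ] XX := cj (ad (TH t))

def vX (l : ℕ) : XX := eH.symm (ww l)

lemma TX_contr (t : ℝ) (ht : t ≥ 0) : ‖TX t‖ ≤ 1 := by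
  refine ContinuousLinearMap.opNorm_le_bound _ zero_le_one fun x => ?_
  rw [one_mul, norm_XX', norm_XX', TX, eH_cj]
  exact N_TH ht _

lemma generatesX : GeneratesNeg AX TX := by
  refine generates_of_taylor (K := 1600) ?_ ?_ TX_contr ?_
  · ext1 x; apply eH.injective; rw [TX, eH_cj, TH_zero, ad_one]; rfl
  · intro s hs t ht
    ext1 x; apply eH.injective
    rw [add_comm]
    simp only [TX, eH_cj, TH_add ht hs, ad_mul, mul_apply_eq_comp]
  · intro t ht ht1
    have : TX t - 1 + (t : ℂ) • AX = cj (ad (TH t - 1 + (t : ℂ) • AH)) := by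
      ext1 x; apply eH.injective
      simp only [TX, AX, eH_cj, add_apply, sub_apply, smul_apply, one_apply_eq_self, map_add,
        map_sub, map_smul, ad_add, ad_sub, ad_smul, ad_one]
    rw [this]
    have h1 := norm_cj (ad (TH t - 1 + (t : ℂ) • AH))
    have h2 := TH_taylor ht ht1
    have h3 := norm_ad (TH t - 1 + (t : ℂ) • AH)
    linarith

lemma AX_eig (l : ℕ) (x : H) :
    AX (eH.symm (ad (Pr l) x)) = (nu l : ℂ) • eH.symm (ad (Pr l) x) := by
  apply eH.injective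
  rw [AX, eH_cj, map_smul, ContinuousLinearEquiv.apply_symm_apply, ad_eigen AH_vv]

lemma dense_vX : Dense (Submodule.span ℂ (range vX) : Set XX) := by
  have h := eH.symm.surjective.denseRange.dense_image eH.symm.continuous dense_ww
  refine h.mono ?_
  rintro _ ⟨y, hy, rfl⟩
  refine Submodule.span_induction (p := fun y _ => eH.symm y ∈ Submodule.span ℂ (range vX))
    ?_ ?_ ?_ ?_ hy
  · rintro _ ⟨l, rfl⟩; exact Submodule.subset_span ⟨l, rfl⟩
  · simp
  · intro a b _ _ ha hb; rw [map_add]; exact Submodule.add_mem _ ha hb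
  · intro c a _ ha; rw [map_smul]; exact Submodule.smul_mem _ _ ha

lemma sectorialX : IsSectorial AX :=
  sectorial_of_contractive generatesX TX_contr dense_vX nu_pos fun l => AX_eig l (ev l)

lemma positiveX (t : ℝ) (ht : t ≥ 0) (a : EE) (ha : 0 ≤ a) :
    ∃ b : EE, 0 ≤ b ∧ TX t (iota a) = iota b := by
  rw [le_def, co_zero] at ha
  have h1 : ∀ i, 0 ≤ ad (TH t) (eH (iota a)) i := Pos.nonneg (Pos.ad (TH_entry ht)) fun i => by
    rw [iota_apply]; exact Complex.zero_le_real.2 (ha i)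
  refine ⟨⟨TX t (iota a), fun i => ?_⟩, ?_, rfl⟩
  · rw [TX, eH_cj]; exact (Complex.nonneg_iff.1 (h1 i)).2.symm
  · refine (le_def _ _).2 ?_
    rw [co_zero]
    intro i
    change 0 ≤ (eH (TX t (iota a)) i).re
    rw [TX, eH_cj]; exact (Complex.nonneg_iff.1 (h1 i)).1

lemma umdX : IsUMD XX := isUMD_of_equiv eH

lemma GA_unboundedX (C : ℝ) : ∃ p ∈ GA, C * ‖eH.symm p.1‖ < ‖eH.symm p.2‖ := by
  obtain ⟨p, hp, h⟩ := GA_unbounded (|C| * 2)
  refine ⟨p, hp, ?_⟩
  have h1 := norm_le_eH (eH.symm p.1)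
  have h2 := norm_eH_le (eH.symm p.2)
  rw [ContinuousLinearEquiv.apply_symm_apply] at h1 h2
  calc C * ‖eH.symm p.1‖ ≤ |C| * (2 * ‖p.1‖) := by gcongr; exact le_abs_self C
    _ = |C| * 2 * ‖p.1‖ := by ring
    _ < _ := h.trans_le h2

lemma nu0 {ν : ℝ} (h : sInf (sectAngles AX) < ν) : 0 < ν :=
  lt_of_le_of_lt (Real.sInf_nonneg fun _ hx => hx.1.le) h

theorem not_bip : ¬ ImagPowerBounded AX s0 := by
  rintro ⟨ν, C, h1, h2, h⟩
  obtain ⟨c, hc, hl⟩ := one_add_lower (nu0 h1).le h2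
  have hb : ∀ r θ : ℝ, 0 < r → |θ| ≤ ν → ‖(r * exp (θ * I)) / (1 + r * exp (θ * I)) ^ 2‖ ≤
      c⁻¹ ^ 2 * (r / (1 + r) ^ 2) := by
    intro r θ hr hθ
    have := hl (r * exp (θ * I)) (by rwa [arg_ray hr (hθ.trans_lt h2)])
    rw [norm_ray _ _ hr.le] at this
    rw [norm_div, norm_pow, norm_ray _ _ hr.le]
    calc _ ≤ r / (c * (1 + r)) ^ 2 := by gcongr
      _ = _ := by field_simp
  have e1 := fun l x => calc_eigen sectorialX.2 h1 h2 phi_diff hb (nu_pos l) (AX_eig l x)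
  have e2 := fun l x => calc_eigen sectorialX.2 h1 h2 (phi_diff.mul (ipow_diff s0))
    (C := c⁻¹ ^ 2 * Real.exp (|s0| * Real.pi)) (fun r θ hr hθ => by
      rw [Pi.mul_apply, norm_mul, mul_right_comm]
      gcongr
      · exact hb r θ hr hθ
      · exact norm_ipow_le _ _) (nu_pos l) (AX_eig l x)
  obtain ⟨p, hp, hlt⟩ := GA_unboundedX C
  refine absurd (h _ _ ?_) (not_le.2 hlt)
  refine Submodule.span_induction (p := fun p _ =>
    cauchyCalc AX ν (fun z => z / (1 + z) ^ 2) (eH.symm p.2) =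
      cauchyCalc AX ν (fun z => z / (1 + z) ^ 2 * z ^ (I * s0)) (eH.symm p.1)) ?_ ?_ ?_ ?_ hp
  · rintro _ ⟨l, x, rfl⟩
    simp only [map_smul]
    refine (congrArg _ (e1 l x)).trans (Eq.trans ?_ (e2 l x).symm)
    rw [smul_smul, Pi.mul_apply, nu_ipow, mul_comm]
  · simp
  · intro a b _ _ ha hb
    simp only [Prod.fst_add, Prod.snd_add, map_add, ha, hb]
  · intro c a _ ha
    simp only [Prod.smul_fst, Prod.smul_snd, map_smul, ha]

theorem not_hinf : ¬ HasBoundedHinf AX := by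
  rintro ⟨σ, ν, C, h1, h2, h3, h⟩
  have hνπ := h2.trans h3
  obtain ⟨c, hc, hl⟩ := one_add_lower ((nu0 h1).trans h2).le h3
  set M := Real.exp (|s0| * Real.pi) * c⁻¹ ^ 2 with hM
  have hM0 : 0 < M := by positivity
  have hn : ∀ a : ℝ, 1 ≤ a → ‖cauchyCalc AX ν (ftest a)‖ ≤ C * M := by
    intro a ha
    have ha0 : 0 < a := one_pos.trans_le ha
    refine h _ ⟨(ftest_diff ha0).mono fun z hz => ?_, M * a ^ 2, by positivity, 1, one_pos,
      fun z hz => ?_⟩ M fun z hz => (ftest_bound hc hl ha hz.2.le).1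
    · exact mem_slitPlane_iff_arg.2 ⟨((le_abs_self _).trans_lt (hz.2.trans h3)).ne, hz.1⟩
    · refine (ftest_bound hc hl ha hz.2.le).2.trans (le_of_eq ?_)
      rw [Real.rpow_one, mul_one, Real.rpow_neg (by positivity), Real.rpow_ofNat]
      ring
  have e1 : ∀ a : ℝ, 1 ≤ a → ∀ l x, cauchyCalc AX ν (ftest a) (eH.symm (ad (Pr l) x))
      = ftest a (nu l) • eH.symm (ad (Pr l) x) :=
    fun a ha l x => calc_eigen sectorialX.2 h1 hνπ (ftest_diff (one_pos.trans_le ha))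
      (C := M * a ^ 2) (fun r θ hr hθ => by
        have := (ftest_bound hc hl ha (z := r * exp (θ * I))
          (by rw [arg_ray hr (hθ.trans_lt hνπ)]; linarith)).2
        rwa [norm_ray _ _ hr.le] at this) (nu_pos l) (AX_eig l x)
  obtain ⟨p, hp, hlt⟩ := GA_unboundedX (C * M)
  generalize hS : (fun a => cauchyCalc AX ν (ftest a)) = S
  have hn' : ∀ a : ℝ, 1 ≤ a → ‖S a‖ ≤ C * M := hS ▸ hn
  replace e1 : ∀ a : ℝ, 1 ≤ a → ∀ l x, S a (eH.symm (ad (Pr l) x))
      = ftest a (nu l) • eH.symm (ad (Pr l) x) := hS ▸ e1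
  have hlim : Tendsto (fun a : ℝ => S a (eH.symm p.1)) atTop (𝓝 (eH.symm p.2)) := by
    refine Submodule.span_induction (p := fun (p : H × H) _ =>
      Tendsto (fun a : ℝ => S a (eH.symm p.1)) atTop (𝓝 (eH.symm p.2))) ?_ ?_ ?_ ?_ hp
    · rintro _ ⟨l, x, rfl⟩
      simp only [map_smul]
      refine ((ftest_tendsto l).smul_const (eH.symm (ad (Pr l) x))).congr' ?_
      filter_upwards [eventually_ge_atTop 1] with a ha
      exact (e1 a ha l x).symm
    · simp
    · intro a b _ _ ha hb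
      simpa only [Prod.fst_add, Prod.snd_add, map_add] using ha.add hb
    · intro c a _ ha
      simpa only [Prod.smul_fst, Prod.smul_snd, map_smul] using ha.const_smul c
  refine absurd (le_of_tendsto hlim.norm ?_) (not_le.2 hlt)
  filter_upwards [eventually_ge_atTop 1] with a ha
  exact (S a).le_of_opNorm_le (hn' a ha) _

end

end Pool.Agent.P.MP_04e97d_an.U
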