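import Pool.Agent.P.MP_04e97d_an.U.Ad

/-! The uniformly convex lattice norm. -/

namespace Pool.Agent.P.MP_04e97d_an.U

open Finset Filter Topology
open scoped ComplexOrder

noncomputable section

/-- Weighted sums of squares along a list of cut points. -/
def G : ℕ∞ → List ℕ → H → ℝ
  | _, [], _ => 0
  | b, n :: l, z => if (n : ℕ∞) ≤ b then ‖E b (Q n z)‖ ^ 2 + 1 / 4 * G n l z else 0

lemma G_cons {b : ℕ∞} {n : ℕ} (h : (n : ℕ∞) ≤ b) (l : List ℕ) (z : H) :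
    G b (n :: l) z = ‖E b (Q n z)‖ ^ 2 + 1 / 4 * G n l z := if_pos h

lemma G_cons' {b : ℕ∞} {n : ℕ} (h : ¬ (n : ℕ∞) ≤ b) (l : List ℕ) (z : H) :
    G b (n :: l) z = 0 := if_neg h

lemma G_nonneg (l : List ℕ) : ∀ (b : ℕ∞) (z : H), 0 ≤ G b l z := by
  induction l with
  | nil => exact fun _ _ => le_rfl
  | cons n l ih =>
    intro b z
    by_cases h : (n : ℕ∞) ≤ b
    · rw [G_cons h]; have := ih n z; positivity
    · rw [G_cons' h]

lemma G_single (b : ℕ∞) (z : H) : G b [0] z = ‖E b z‖ ^ 2 := by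
  rw [G_cons (by simp), Q_zero]; simp [G]

lemma G_smul (c : ℂ) (l : List ℕ) : ∀ (b : ℕ∞) (z : H), G b l (c • z) = ‖c‖ ^ 2 * G b l z := by
  induction l with
  | nil => intro b z; simp [G]
  | cons n l ih =>
    intro b z
    by_cases h : (n : ℕ∞) ≤ b
    · rw [G_cons h, G_cons h, ih, map_smul, map_smul, norm_smul]; ring
    · rw [G_cons' h, G_cons' h, mul_zero]

lemma G_par (x y : H) (l : List ℕ) :
    ∀ b : ℕ∞, G b l (x + y) + G b l (x - y) = 2 * G b l x + 2 * G b l y := by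
  induction l with
  | nil => intro b; simp [G]
  | cons n l ih =>
    intro b
    by_cases h : (n : ℕ∞) ≤ b
    · simp only [G_cons h, map_add, map_sub]
      have := parallelogram_law_with_norm ℂ (E b (Q n x)) (E b (Q n y))
      have := ih n
      nlinarith
    · simp [G_cons' h]

lemma G_add (x y : H) {t : ℝ} (ht : 0 < t) (l : List ℕ) :
    ∀ b : ℕ∞, G b l (x + y) ≤ (1 + t) * G b l x + (1 + t⁻¹) * G b l y := by
  induction l with
  | nil => intro b; simp [G]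
  | cons n l ih =>
    intro b
    by_cases h : (n : ℕ∞) ≤ b
    · simp only [G_cons h, map_add]
      have h1 := norm_add_le (E b (Q n x)) (E b (Q n y))
      have h2 : ‖E b (Q n x) + E b (Q n y)‖ ^ 2 ≤ (‖E b (Q n x)‖ + ‖E b (Q n y)‖) ^ 2 := by gcongr
      have h3 : 0 ≤ t⁻¹ * (t * ‖E b (Q n x)‖ - ‖E b (Q n y)‖) ^ 2 := by positivity
      have h4 : t⁻¹ * (t * ‖E b (Q n x)‖ - ‖E b (Q n y)‖) ^ 2 = t * ‖E b (Q n x)‖ ^ 2
          - 2 * ‖E b (Q n x)‖ * ‖E b (Q n y)‖ + t⁻¹ * ‖E b (Q n y)‖ ^ 2 := by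
        field_simp; ring
      have := ih n
      nlinarith
    · simp [G_cons' h]

lemma G_dom {x y : H} (hxy : ∀ i, ‖x i‖ ≤ ‖y i‖) (l : List ℕ) :
    ∀ b : ℕ∞, G b l x ≤ G b l (absH y) := by
  induction l with
  | nil => exact fun _ => le_rfl
  | cons n l ih =>
    intro b
    by_cases h : (n : ℕ∞) ≤ b
    · rw [G_cons h, G_cons h]
      have h1 := E_dom ((Q_pos n).dom hxy) (le_refl b)
      have := ih n
      gcongr
    · rw [G_cons' h, G_cons' h]

lemma G_Q (a : ℕ) (z : H) (l : List ℕ) :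
    ∀ b : ℕ∞, G b l (Q a z) ≤ G (max b a) (l.map fun n => max n a) z := by
  induction l with
  | nil => exact fun _ => le_rfl
  | cons n l ih =>
    intro b
    by_cases h : (n : ℕ∞) ≤ b
    · have e : ((max n a : ℕ) : ℕ∞) = max (n : ℕ∞) a := Nat.mono_cast.map_max
      rw [G_cons h, List.map_cons, G_cons (by rw [e]; exact max_le_max h le_rfl), Q_Q, e]
      have h1 := E_dom (x := Q (max n a) z) (y := Q (max n a) z) (fun _ => le_rfl)
        (le_max_left b a)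
      have := ih n
      gcongr
    · rw [G_cons' h]; exact G_nonneg _ _ _

lemma piece {b : ℕ∞} (n : ℕ) (z : H) :
    |‖E b (Q n z)‖ - ‖E b (z - E n z)‖| ≤ 1 / 40 * ‖E n z‖ := by
  refine (abs_norm_sub_norm_le _ _).trans ?_
  rw [← map_sub]
  exact (E_le _ _).trans (Q_near n z)

lemma G_step {b : ℕ∞} {n : ℕ} (h : (n : ℕ∞) ≤ b) (l : List ℕ) (z : H)
    (ih : G n l z ≤ 2 * ‖E n z‖ ^ 2) :
    G b (n :: l) z ≤ (‖E b (z - E n z)‖ + 1 / 40 * ‖E n z‖) ^ 2 + 1 / 2 * ‖E n z‖ ^ 2 := by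
  rw [G_cons h]
  have h1 := (abs_le.1 (piece (b := b) n z)).2
  have h2 : ‖E b (Q n z)‖ ^ 2 ≤ (‖E b (z - E n z)‖ + 1 / 40 * ‖E n z‖) ^ 2 := by
    gcongr; linarith
  linarith

lemma G_le (z : H) (l : List ℕ) : ∀ b : ℕ∞, G b l z ≤ 2 * ‖E b z‖ ^ 2 := by
  induction l with
  | nil => intro b; simp [G]
  | cons n l ih =>
    intro b
    by_cases h : (n : ℕ∞) ≤ b
    · have h1 := G_step h l z (ih n)
      rw [E_pyth h]
      nlinarith [sq_nonneg (‖E b (z - E n z)‖ - 1 / 40 * ‖E n z‖), sq_nonneg ‖E n z‖]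
    · rw [G_cons' h]; positivity

lemma G_uc {v d : H} (hd : ∀ i, ‖d i‖ ≤ ‖v i‖) (l : List ℕ) : ∀ b : ℕ∞, ∃ l' : List ℕ,
    G b l v * ‖E b v‖ + 1 / 5 * ‖E b d‖ ^ 3 ≤ (G b l' v + G b l' d) * ‖E b v‖ := by
  have triv : ∀ (b : ℕ∞) (g : ℝ), g ≤ ‖E b v‖ ^ 2 →
      g * ‖E b v‖ + 1 / 5 * ‖E b d‖ ^ 3 ≤ (G b [0] v + G b [0] d) * ‖E b v‖ := by
    intro b g hg
    rw [G_single, G_single]
    have h1 := E_dom hd (le_refl b)
    have h2 := norm_nonneg (E b d)
    have h3 : ‖E b d‖ ^ 2 * ‖E b d‖ ≤ ‖E b d‖ ^ 2 * ‖E b v‖ := by gcongr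
    have h4 : g * ‖E b v‖ ≤ ‖E b v‖ ^ 2 * ‖E b v‖ := by gcongr
    have h5 : 0 ≤ ‖E b d‖ ^ 3 := by positivity
    nlinarith
  induction l with
  | nil => exact fun b => ⟨[0], triv b _ (sq_nonneg _)⟩
  | cons n l ih =>
    intro b
    by_cases h : (n : ℕ∞) ≤ b
    swap
    · exact ⟨[0], triv b _ (by rw [G_cons' h]; positivity)⟩
    have p1 := E_pyth h v
    have p2 := E_pyth h d
    have hV := E_dom hd (le_refl b)
    have hh := E_dom hd (le_refl (n : ℕ∞))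
    have n1 := norm_nonneg (E b d)
    have n2 := norm_nonneg (E n d)
    have n3 := norm_nonneg (E b (d - E n d))
    have n4 := norm_nonneg (E b (v - E n v))
    by_cases hA : ‖E b v‖ ≤ 8 * ‖E n v‖
    · refine ⟨[0], triv b _ ((G_step h l v (G_le v l n)).trans ?_)⟩
      have h1 : ‖E b (v - E n v)‖ ≤ ‖E b v‖ :=
        abs_le_of_sq_le_sq' (by nlinarith) (norm_nonneg _) |>.2
      have h2 : ‖E b (v - E n v)‖ * ‖E n v‖ ≤ 8 * ‖E n v‖ * ‖E n v‖ := by
        gcongr; exact h1.trans hA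
      nlinarith
    push Not at hA
    by_cases hB : ‖E b d‖ ≤ 2 * ‖E b (d - E n d)‖
    · refine ⟨n :: l, ?_⟩
      have h1 := (abs_le.1 (piece (b := b) n d)).1
      have h2 : ‖E n d‖ ≤ ‖E b d‖ := E_dom (fun _ => le_rfl) h
      have h3 : (19 / 40 * ‖E b d‖) ^ 2 ≤ ‖E b (Q n d)‖ ^ 2 := by gcongr; linarith
      have h4 : 1 / 5 * ‖E b d‖ ^ 2 ≤ G b (n :: l) d := by
        rw [G_cons h]; have := G_nonneg l n d; nlinarith
      have h5 : 1 / 5 * ‖E b d‖ ^ 2 * ‖E b d‖ ≤ G b (n :: l) d * ‖E b v‖ := by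
        gcongr; exact G_nonneg _ _ _
      nlinarith
    push Not at hB
    obtain ⟨l', hl'⟩ := ih n
    have h1 : 4 / 5 * ‖E b d‖ ≤ ‖E n d‖ :=
      abs_le_of_sq_le_sq' (by nlinarith) n2 |>.2
    have h2 : (4 / 5 * ‖E b d‖) ^ 3 ≤ ‖E n d‖ ^ 3 := by gcongr
    have h3 : 0 < ‖E n v‖ := by linarith
    set Δ := G n l' v + G n l' d - G n l v with hΔ
    have h4 : 1 / 5 * ‖E n d‖ ^ 3 ≤ Δ * ‖E n v‖ := by rw [hΔ]; linarith
    have h5 : 0 ≤ Δ := by
      by_contra h5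
      have := mul_neg_of_neg_of_pos (not_le.1 h5) h3
      have : 0 ≤ ‖E n d‖ ^ 3 := by positivity
      linarith
    have h6 : Δ * (8 * ‖E n v‖) ≤ Δ * ‖E b v‖ := by gcongr
    have h7 : 0 ≤ ‖E b (Q n d)‖ ^ 2 * ‖E b v‖ := by positivity
    have h8 : 0 ≤ ‖E b d‖ ^ 3 := by positivity
    refine ⟨n :: l', ?_⟩
    simp only [G_cons h]
    nlinarith

/-- The square of the new norm. -/
def N2 (x : H) : ℝ := ⨆ l : List ℕ, G ⊤ l (absH x)

lemma G_top_le (l : List ℕ) (x : H) : G ⊤ l (absH x) ≤ 2 * ‖x‖ ^ 2 := by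
  have := G_le (absH x) l ⊤
  rwa [E_top, norm_absH] at this

lemma le_N2 (l : List ℕ) (x : H) : G ⊤ l (absH x) ≤ N2 x :=
  le_ciSup (f := fun l => G ⊤ l (absH x)) ⟨2 * ‖x‖ ^ 2, by rintro _ ⟨l, rfl⟩; exact G_top_le l x⟩ l

lemma N2_le {x : H} {C : ℝ} (h : ∀ l, G ⊤ l (absH x) ≤ C) : N2 x ≤ C := ciSup_le h

lemma sq_le_N2 (x : H) : ‖x‖ ^ 2 ≤ N2 x := by
  have := le_N2 [0] x
  rwa [G_single, E_top, norm_absH] at this

lemma N2_nonneg (x : H) : 0 ≤ N2 x := (sq_nonneg _).trans (sq_le_N2 x)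

/-- The new norm. -/
def N (x : H) : ℝ := √(N2 x)

lemma N_sq (x : H) : N x ^ 2 = N2 x := Real.sq_sqrt (N2_nonneg x)

lemma N_nonneg (x : H) : 0 ≤ N x := Real.sqrt_nonneg _

lemma norm_le_N (x : H) : ‖x‖ ≤ N x := Real.le_sqrt_of_sq_le (sq_le_N2 x)

lemma N_le_norm (x : H) : N x ≤ 2 * ‖x‖ :=
  Real.sqrt_le_iff.2 ⟨by positivity, N2_le fun l => (G_top_le l x).trans (by
    nlinarith [sq_nonneg ‖x‖])⟩

lemma N2_mono {x y : H} (h : ∀ i, ‖x i‖ ≤ ‖y i‖) : N2 x ≤ N2 y := N2_le fun l =>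
  (G_dom (x := absH x) (y := y) (fun i => by simpa [absH_apply] using h i) l ⊤).trans (le_N2 l y)

lemma N_mono {x y : H} (h : ∀ i, ‖x i‖ ≤ ‖y i‖) : N x ≤ N y := Real.sqrt_le_sqrt (N2_mono h)

lemma abs_add_dom (x y : H) (i : ℕ) : ‖(x + y) i‖ ≤ ‖(absH x + absH y) i‖ := by
  simp only [absH_apply, lp.coeFn_add, Pi.add_apply, ← Complex.ofReal_add, Complex.norm_real,
    Real.norm_eq_abs]
  exact (norm_add_le _ _).trans (le_abs_self _)

lemma N_add (x y : H) : N (x + y) ≤ N x + N y := by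
  have h1 : ∀ t : ℝ, 0 < t → N2 (x + y) ≤ (1 + t) * N2 x + (1 + t⁻¹) * N2 y := by
    intro t ht
    refine (N2_mono (abs_add_dom x y)).trans (N2_le fun l => ?_)
    rw [absH_of_nonneg fun i => add_nonneg (absH_nonneg x i) (absH_nonneg y i)]
    refine (G_add _ _ ht l ⊤).trans ?_
    have := le_N2 l x
    have := le_N2 l y
    gcongr
  have h0 : ∀ z, N z = 0 → z = 0 := fun z hz => norm_le_zero_iff.1 (hz ▸ norm_le_N z)
  rcases (N_nonneg x).eq_or_lt with hx | hx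
  · rw [h0 x hx.symm, zero_add]; linarith [N_nonneg (0 : H)]
  rcases (N_nonneg y).eq_or_lt with hy | hy
  · rw [h0 y hy.symm, add_zero]; linarith [N_nonneg (0 : H)]
  refine abs_le_of_sq_le_sq' ?_ (by positivity) |>.2
  have h2 := h1 (N y / N x) (by positivity)
  rw [← N_sq, ← N_sq, ← N_sq] at h2
  refine h2.trans (le_of_eq ?_)
  field_simp
  ring

lemma N_smul (c : ℂ) (x : H) : N (c • x) = ‖c‖ * N x := by
  have : absH (c • x) = (‖c‖ : ℂ) • absH x := by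
    ext i
    rw [lp.coeFn_smul, Pi.smul_apply, absH_apply, absH_apply, lp.coeFn_smul, Pi.smul_apply,
      norm_smul, smul_eq_mul, Complex.ofReal_mul]
  simp only [N, N2, this, G_smul, Complex.norm_real, norm_norm]
  rw [← Real.mul_iSup_of_nonneg (sq_nonneg _), Real.sqrt_mul (sq_nonneg _),
    Real.sqrt_sq (norm_nonneg _)]

lemma N_Q (a : ℕ) (x : H) : N (Q a x) ≤ N x := by
  refine (N_mono ((Q_pos a).dom (y := x) fun i => le_rfl)).trans
    (Real.sqrt_le_sqrt (N2_le fun l => ?_))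
  rw [absH_of_nonneg ((Q_pos a).nonneg (absH_nonneg x))]
  have := G_Q a (absH x) l ⊤
  rw [max_eq_left le_top] at this
  exact this.trans (le_N2 _ x)

lemma uc_pos {x y : H} (hx : ∀ i, 0 ≤ x i) (hy : ∀ i, 0 ≤ y i) {r : ℝ} (hr : 0 ≤ r)
    (h1 : N x ≤ r) (h2 : N y ≤ r) :
    N (x + y) ^ 2 * (2 * r) + 1 / 5 * ‖x - y‖ ^ 3 ≤ 4 * r ^ 2 * (2 * r) := by
  have hd : ∀ i, ‖(x - y) i‖ ≤ ‖(x + y) i‖ := by
    intro i
    obtain ⟨a, ha, e1⟩ : ∃ a : ℝ, 0 ≤ a ∧ x i = a :=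
      ⟨_, norm_nonneg _, (Complex.norm_of_nonneg' (hx i)).symm⟩
    obtain ⟨b, hb, e2⟩ : ∃ a : ℝ, 0 ≤ a ∧ y i = a :=
      ⟨_, norm_nonneg _, (Complex.norm_of_nonneg' (hy i)).symm⟩
    simp only [lp.coeFn_add, lp.coeFn_sub, Pi.add_apply, Pi.sub_apply, e1, e2,
      ← Complex.ofReal_add, ← Complex.ofReal_sub, Complex.norm_real, Real.norm_eq_abs]
    rw [abs_of_nonneg (add_nonneg ha hb), abs_le]
    constructor <;> linarith
  have hs : ‖x + y‖ ≤ 2 * r := (norm_le_N _).trans ((N_add x y).trans (by linarith))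
  have x2 : N2 x ≤ r ^ 2 := by rw [← N_sq]; have := N_nonneg x; gcongr
  have y2 : N2 y ≤ r ^ 2 := by rw [← N_sq]; have := N_nonneg y; gcongr
  rcases hr.eq_or_lt with rfl | hr
  · have e1 : x = 0 := norm_le_zero_iff.1 ((norm_le_N x).trans h1)
    have e2 : y = 0 := norm_le_zero_iff.1 ((norm_le_N y).trans h2)
    simp [e1, e2]
  have h3 : N2 (x + y) ≤ 4 * r ^ 2 - 1 / 5 * ‖x - y‖ ^ 3 / (2 * r) := N2_le fun l => by
    rw [absH_of_nonneg fun i => add_nonneg (hx i) (hy i)]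
    have key : ∀ l, G ⊤ l (x + y) + G ⊤ l (x - y) ≤ 4 * r ^ 2 := fun l => by
      have a1 := le_N2 l x
      have a2 := le_N2 l y
      rw [absH_of_nonneg hx] at a1
      rw [absH_of_nonneg hy] at a2
      rw [G_par]; linarith
    obtain ⟨l', hl'⟩ := G_uc hd l ⊤
    rw [E_top, E_top] at hl'
    have a3 : (G ⊤ l' (x + y) + G ⊤ l' (x - y)) * ‖x + y‖ ≤ 4 * r ^ 2 * ‖x + y‖ := by
      gcongr; exact key l'
    have a4 : 0 ≤ 4 * r ^ 2 - G ⊤ l (x + y) := by linarith [key l, G_nonneg l ⊤ (x - y)]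
    have a5 : (4 * r ^ 2 - G ⊤ l (x + y)) * ‖x + y‖ ≤ (4 * r ^ 2 - G ⊤ l (x + y)) * (2 * r) := by
      gcongr
    rw [le_sub_comm, div_le_iff₀ (by positivity)]
    linarith
  rw [le_sub_comm, div_le_iff₀ (by positivity)] at h3
  rw [N_sq]
  linarith

theorem N_uc {ε : ℝ} (hε : 0 < ε) : ∃ δ > 0, ∀ x y : H, N x = 1 → N y = 1 → ε ≤ N (x - y) →
    N (x + y) ≤ 2 - δ := by
  set a := min 1 (ε ^ 2 / 40) with ha
  have a0 : 0 < a := by positivity
  have a1 : a ≤ 1 := min_le_left _ _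
  have a2 : a ≤ ε ^ 2 / 40 := min_le_right _ _
  refine ⟨a ^ 3 / 400, by positivity, fun x y hx hy h => ?_⟩
  by_contra hne
  push Not at hne
  have a3 : a ^ 3 ≤ 1 := pow_le_one₀ a0.le a1
  have a4 : 0 < a ^ 3 := by positivity
  have nabs : ∀ z, N (absH z) ≤ N z := fun z => N_mono fun i => by simp [absH_apply]
  set u := absH x + absH y with hu
  set w := absH (x + y) with hw
  have u0 : ∀ i, 0 ≤ u i := fun i => add_nonneg (absH_nonneg x i) (absH_nonneg y i)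
  have hwu : ∀ i, ‖(x + y) i‖ ≤ ‖u i‖ := abs_add_dom x y
  have hu2 : N u ≤ 2 := (N_add _ _).trans (by linarith [nabs x, nabs y])
  have hw2 : N w ≤ 2 := (nabs _).trans ((N_add _ _).trans (by linarith))
  have b1 := uc_pos (absH_nonneg x) (absH_nonneg y) zero_le_one ((nabs x).trans hx.le)
    ((nabs y).trans hy.le)
  have b2 := uc_pos u0 (absH_nonneg (x + y)) zero_le_two hu2 hw2
  have c1 : 2 - a ^ 3 / 400 ≤ N u := hne.le.trans (N_mono hwu)
  have c2 : 2 * (2 - a ^ 3 / 400) ≤ N (u + w) := by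
    have : N ((2 : ℂ) • (x + y)) ≤ N (u + w) := N_mono fun i => by
      obtain ⟨s, hs, e1⟩ : ∃ a : ℝ, 0 ≤ a ∧ u i = a :=
        ⟨_, norm_nonneg _, (Complex.norm_of_nonneg' (u0 i)).symm⟩
      have h1 := hwu i
      rw [e1, Complex.norm_real, Real.norm_of_nonneg hs] at h1
      rw [lp.coeFn_smul, Pi.smul_apply, norm_smul, lp.coeFn_add u, Pi.add_apply, e1, hw,
        absH_apply, ← Complex.ofReal_add, Complex.norm_real, Real.norm_eq_abs, Complex.norm_ofNat]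
      exact le_trans (by linarith) (le_abs_self _)
    rw [N_smul, Complex.norm_ofNat] at this
    linarith
  have d1 : (2 - a ^ 3 / 400) ^ 2 ≤ N u ^ 2 := by gcongr; linarith
  have d2 : (2 * (2 - a ^ 3 / 400)) ^ 2 ≤ N (u + w) ^ 2 := by gcongr; linarith
  have e1 : ‖absH x - absH y‖ < a :=
    lt_of_pow_lt_pow_left₀ 3 a0.le (by rw [← hu] at b1; nlinarith)
  have e2 : ‖u - w‖ < a :=
    lt_of_pow_lt_pow_left₀ 3 a0.le (by rw [← hw] at b2; nlinarith)
  have f1 := parallelogram_law_with_norm ℂ x y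
  have f2 := parallelogram_law_with_norm ℂ (absH x) (absH y)
  rw [norm_absH, norm_absH, ← hu] at f2
  have f3 : ‖w‖ = ‖x + y‖ := norm_absH _
  have f4 := norm_sub_norm_le u w
  have f5 : ‖u‖ ≤ 2 := (norm_le_N _).trans hu2
  have f6 : ‖w‖ ≤ 2 := (norm_le_N _).trans hw2
  have f7 : (‖u‖ - ‖w‖) * (‖u‖ + ‖w‖) ≤ a * 4 :=
    (mul_le_mul_of_nonneg_right (f4.trans e2.le) (by positivity)).trans (by gcongr; linarith)
  have f8 : ‖absH x - absH y‖ ^ 2 ≤ a ^ 2 := by gcongr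
  have f9 : ε ^ 2 ≤ (2 * ‖x - y‖) ^ 2 := by gcongr; exact h.trans (N_le_norm _)
  rw [f3] at f7
  nlinarith

lemma N_mul {c : ℕ → ℝ} (hc : Monotone c) (h0 : ∀ n, 0 ≤ c n) (h1 : Tendsto c atTop (𝓝 1))
    {S : H →L[ℂ] H} (hS : ∀ l, S (vv l) = (c l : ℂ) • vv l) (x : H) : N (ad S x) ≤ N x := by
  have hle : ∀ n, c n ≤ 1 := hc.ge_of_tendsto h1
  have h2 : ∀ k, ∃ U : H →L[ℂ] H, (∀ l, U (vv l) = (c (min l k) : ℂ) • vv l) ∧
      N (ad U x) ≤ c k * N x := by
    intro k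
    induction k with
    | zero =>
      refine ⟨(c 0 : ℂ) • 1, fun l => by
        rw [smul_apply, one_apply_eq_self, min_eq_right (Nat.zero_le l)], ?_⟩
      rw [ad_smul, ad_one, smul_apply, N_smul, Complex.norm_real, Real.norm_of_nonneg (h0 0)]
      rfl
    | succ k ih =>
      obtain ⟨U, hU, hN⟩ := ih
      have hk : 0 ≤ c (k + 1) - c k := sub_nonneg.2 (hc k.le_succ)
      refine ⟨U + ((c (k + 1) - c k : ℝ) : ℂ) • R (k + 1), fun l => ?_, ?_⟩
      · rw [add_apply, smul_apply, hU, R_vv, smul_smul, ← add_smul, ← Complex.ofReal_mul,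
          ← Complex.ofReal_add]
        congr 2
        unfold ind
        split_ifs with h
        · rw [min_eq_right (by omega), min_eq_right h]; ring
        · rw [min_eq_left (by omega), min_eq_left (by omega)]; ring
      · rw [ad_add, ad_smul, add_apply, smul_apply]
        refine (N_add _ _).trans ?_
        rw [N_smul, Complex.norm_real, Real.norm_of_nonneg hk]
        have := mul_le_mul_of_nonneg_left (N_Q (k + 1) x) hk
        unfold Q at this
        linarith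
  have h3 : ∀ k, N (ad S x) ≤ N x + (1 - c k) * (1600 * ‖x‖) := by
    intro k
    obtain ⟨U, hU, hN⟩ := h2 k
    have h4 := mul_spec (fun l => c l - c (min l k)) (1 - c k) (Or.inl fun a b hab => by
      rcases le_total a k with h | h
      · simp only [min_eq_left h, sub_self, sub_nonneg]; exact hc (min_le_left _ _)
      · simp only [min_eq_right h, min_eq_right (h.trans hab)]; linarith [hc hab]) fun l => by
      rcases le_total l k with h | h
      · simp only [min_eq_left h, sub_self, abs_zero, sub_nonneg]; exact hle k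
      · simp only [min_eq_right h]
        rw [abs_of_nonneg (sub_nonneg.2 (hc h))]; linarith [hle l]
    have h5 : S = U + mul fun l => c l - c (min l k) := ext_vv fun l => by
      rw [add_apply, hS, hU, h4.1.eigen, ← add_smul]; congr 1; push_cast; ring
    rw [h5, ad_add, add_apply]
    refine (N_add _ _).trans (add_le_add (hN.trans ?_) ((N_le_norm _).trans ?_))
    · exact mul_le_of_le_one_left (N_nonneg x) (hle k)
    · have h6 := (ad _).le_of_opNorm_le ((norm_ad _).trans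
        (mul_le_mul_of_nonneg_left h4.2 (by norm_num))) x
      linarith
  have h4 : Tendsto (fun k => N x + (1 - c k) * (1600 * ‖x‖)) atTop
      (𝓝 (N x + (1 - 1) * (1600 * ‖x‖))) := ((h1.const_sub 1).mul_const _).const_add _
  simpa using ge_of_tendsto' h4 h3

lemma N_TH {t : ℝ} (ht : 0 ≤ t) (x : H) : N (ad (TH t) x) ≤ N x := by
  refine N_mul (exp_mono ht) (fun n => (Real.exp_pos _).le) ?_ (TH_vv ht) x
  have h1 : Tendsto nu atTop (𝓝 0) :=
    tendsto_pow_atTop_nhds_zero_of_lt_one (by norm_num) (by norm_num)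
  have h2 := (Real.continuous_exp.tendsto _).comp (h1.const_mul t).neg
  simpa [Function.comp_def] using h2

end

end Pool.Agent.P.MP_04e97d_an.U
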